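import Pool.Agent.helper46.T1.SpecP
import Pool.Agent.helper62.RS.GLC

set_option autoImplicit false

/-!
# Project T1, block P: row PAV (averages)
-/

open scoped MatrixGroups ContDiff Topology UpperHalfPlane ComplexConjugate
open UpperHalfPlane MeasureTheory Filter Set

namespace Pool.Agent.TP

open Pool.Agent.RS Pool.Agent.MS

/-- Continuity of the averages. -/
theorem PAV_cont (u : SL(2, ℝ) → ℝ) (c : ℝ → ℝ) (hu : Continuous u) (hc : Continuous c) (W : ℝ) :
    Continuous (fun g : SL(2, ℝ) => (∫ s in (0 : ℝ)..W, c s * u (g * aM s)) / W) := by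
  obtain ⟨hlc, -, -, hcaM, -⟩ := GLC
  have := hlc
  have h1 : Continuous (Function.uncurry fun (g : SL(2, ℝ)) (s : ℝ) => c s * u (g * aM s)) := by
    apply Continuous.mul
    · exact hc.comp continuous_snd
    · exact hu.comp (continuous_fst.mul (hcaM.comp continuous_snd))
  exact (intervalIntegral.continuous_parametric_intervalIntegral_of_continuous' h1 0 W).div_const W

/-- Differentiation under the integral sign along a one-parameter group. -/
theorem PAV_der (κ κ' : SL(2, ℝ) → ℝ) (M : ℝ → SL(2, ℝ)) (c : ℝ → ℝ) (B W : ℝ) (hκ : Continuous κ)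
    (hκ' : Continuous κ') (hc : Continuous c) (hM0 : M 0 = 1) (hM : ∀ s t, M (s + t) = M s * M t)
    (hder : ∀ s g, HasDerivAt (fun t => κ (g * M t * aM s)) (c s * κ' (g * aM s)) 0)
    (hB : ∀ g, |κ' g| ≤ B) (g : SL(2, ℝ)) :
    HasDerivAt (fun t => (∫ s in (0 : ℝ)..W, κ (g * M t * aM s)) / W)
      ((∫ s in (0 : ℝ)..W, c s * κ' (g * aM s)) / W) 0 := by
  obtain ⟨-, -, -, hcaM, -⟩ := GLC
  refine HasDerivAt.div_const ?_ W
  have hd : ∀ (s t : ℝ), HasDerivAt (fun t => κ (g * M t * aM s)) (c s * κ' (g * M t * aM s)) t := by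
    intro s t
    have h1 := hder s (g * M t)
    have h3 : HasDerivAt (fun t' => κ (g * M t * M t' * aM s)) (c s * κ' (g * M t * aM s)) (t - t) := by
      rw [sub_self]
      exact h1
    have h4 := HasDerivAt.comp_sub_const t t h3
    have h5 : (fun x => κ (g * M t * M (x - t) * aM s)) = fun x => κ (g * M x * aM s) := by
      funext x
      rw [mul_assoc g (M t), ← hM, add_sub_cancel]
    rw [h5] at h4
    exact h4
  have hg0 : ∀ s, g * M 0 * aM s = g * aM s := by
    intro s
    rw [hM0, mul_one]
  have hcont : ∀ t : ℝ, Continuous (fun s => κ (g * M t * aM s)) := fun t => hκ.comp (continuous_const.mul hcaM)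
  have hcont' : ∀ t : ℝ, Continuous (fun s => c s * κ' (g * M t * aM s)) :=
    fun t => hc.mul (hκ'.comp (continuous_const.mul hcaM))
  have h := (intervalIntegral.hasDerivAt_integral_of_dominated_loc_of_deriv_le (μ := volume) (a := 0) (b := W)
    (F := fun t s => κ (g * M t * aM s)) (F' := fun t s => c s * κ' (g * M t * aM s)) (x₀ := (0 : ℝ))
    (bound := fun s => |c s| * B) (s := univ) univ_mem
    (Eventually.of_forall fun t => (hcont t).aestronglyMeasurable)
    ((hcont 0).intervalIntegrable _ _) (hcont' 0).aestronglyMeasurable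
    (Eventually.of_forall fun s _ t _ => by
      rw [Real.norm_eq_abs, abs_mul]
      exact mul_le_mul_of_nonneg_left (hB _) (abs_nonneg _))
    ((hc.abs.mul continuous_const).intervalIntegrable _ _)
    (Eventually.of_forall fun s _ t _ => hd s t)).2
  have e : ∫ s in (0 : ℝ)..W, c s * κ' (g * M 0 * aM s) = ∫ s in (0 : ℝ)..W, c s * κ' (g * aM s) := by
    simp only [hg0]
  rw [← e]
  exact h

/-- The bound for the averages. -/
theorem PAV_bd (u : SL(2, ℝ) → ℝ) (c : ℝ → ℝ) (hc : Continuous c) (hc0 : ∀ s, 0 ≤ c s) {B W D : ℝ}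
    (hW : 0 < W) (hB : ∀ g, |u g| ≤ B) (hD : ∫ s in (0 : ℝ)..W, c s ≤ D) (g : SL(2, ℝ)) :
    |(∫ s in (0 : ℝ)..W, c s * u (g * aM s)) / W| ≤ D * B / W := by
  obtain ⟨-, -, -, hcaM, -⟩ := GLC
  have hB0 : 0 ≤ B := (abs_nonneg _).trans (hB 1)
  rw [abs_div, abs_of_pos hW]
  refine div_le_div_of_nonneg_right ?_ hW.le
  have h1 : |∫ s in (0 : ℝ)..W, c s * u (g * aM s)| ≤ ∫ s in (0 : ℝ)..W, c s * B := by
    have h2 := intervalIntegral.norm_integral_le_of_norm_le (μ := volume) (a := 0) (b := W)
      (f := fun s => c s * u (g * aM s)) (g := fun s => c s * B) hW.le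
      (Eventually.of_forall fun s _ => by
        rw [Real.norm_eq_abs, abs_mul, abs_of_nonneg (hc0 s)]
        exact mul_le_mul_of_nonneg_left (hB _) (hc0 s))
      ((hc.mul continuous_const).intervalIntegrable _ _)
    exact h2
  rw [intervalIntegral.integral_mul_const] at h1
  exact h1.trans (mul_le_mul_of_nonneg_right hD hB0)

/-- **Row PAV.** -/
theorem PAV_proof (hPSF : PSF_stmt) : PAV_stmt := by
  intro Γ κ κa κn κl W Bn Bl hSF h01 hBn hBl hW
  have hG := GLC
  obtain ⟨hlc, -, -, hcaM, hcnM, hclM, -, -, -, -, haM, hnM, hlM, -, -, -, -, hna, hla, -⟩ := hG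
  have ha0 : aM 0 = 1 := by
    ext i j
    fin_cases i <;> fin_cases j <;> simp [aM]
  have hn0 : nM 0 = 1 := by
    ext i j
    fin_cases i <;> fin_cases j <;> simp [nM]
  have hl0 : lM 0 = 1 := by
    ext i j
    fin_cases i <;> fin_cases j <;> simp [lM]
  have hκc : Continuous κ := hSF.i0.1
  have hBn0 : 0 ≤ Bn := (abs_nonneg _).trans (hBn 1)
  have hBl0 : 0 ≤ Bl := (abs_nonneg _).trans (hBl 1)
  have hci : ∀ g : SL(2, ℝ), Continuous (fun s => κ (g * aM s)) := fun g => hκc.comp (continuous_const.mul hcaM)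
  refine ⟨fun g => ?_, fun hev g => ?_, fun g => (κ (g * aM W) - κ g) / W,
    fun g => (∫ s in (0 : ℝ)..W, Real.exp (-s) * κn (g * aM s)) / W,
    fun g => (∫ s in (0 : ℝ)..W, Real.exp s * κl (g * aM s)) / W, ?_, fun g => ?_, fun g => ?_, fun g => ?_⟩
  · unfold av
    refine ⟨div_nonneg (intervalIntegral.integral_nonneg hW.le fun s _ => (h01 _).1) hW.le, ?_⟩
    rw [div_le_one hW]
    have h1 : ∫ s in (0 : ℝ)..W, κ (g * aM s) ≤ ∫ s in (0 : ℝ)..W, (1 : ℝ) :=
      intervalIntegral.integral_mono_on hW.le ((hci g).intervalIntegrable _ _)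
        (continuous_const.intervalIntegrable _ _) fun s _ => (h01 _).2
    rw [intervalIntegral.integral_const, smul_eq_mul, mul_one, sub_zero] at h1
    exact h1
  · unfold av
    congr 1
    refine intervalIntegral.integral_congr fun s _ => ?_
    have e : -g * aM s = -(g * aM s) := neg_mul _ _
    simp only [e]
    exact hev _
  · have hc1 : Continuous fun s : ℝ => Real.exp (-s) := Real.continuous_exp.comp continuous_neg
    have hc2 : Continuous fun s : ℝ => Real.exp s := Real.continuous_exp
    refine ⟨⟨?_, fun γ g => ?_⟩, ⟨?_, fun γ g => ?_⟩, ⟨?_, fun γ g => ?_⟩, ⟨?_, fun γ g => ?_⟩, fun g => ?_, fun g => ?_,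
      fun g => ?_⟩
    · have h1 := PAV_cont κ (fun _ => 1) hκc continuous_const W
      simp only [one_mul] at h1
      exact h1
    · unfold av
      congr 1
      refine intervalIntegral.integral_congr fun s _ => ?_
      simp only [mul_assoc]
      exact hSF.i0.2 γ _
    · exact ((hκc.comp (continuous_id.mul continuous_const)).sub hκc).div_const W
    · simp only [mul_assoc]
      rw [hSF.i0.2, hSF.i0.2]
    · exact PAV_cont κn _ hSF.i1.1 hc1 W
    · beta_reduce
      congr 1
      refine intervalIntegral.integral_congr fun s _ => ?_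
      simp only [mul_assoc]
      rw [hSF.i1.2]
    · exact PAV_cont κl _ hSF.il.1 hc2 W
    · beta_reduce
      congr 1
      refine intervalIntegral.integral_congr fun s _ => ?_
      simp only [mul_assoc]
      rw [hSF.il.2]
    · have h1 : ∀ t : ℝ, av κ W (g * aM t) = ((∫ s in (0 : ℝ)..(t + W), κ (g * aM s)) - ∫ s in (0 : ℝ)..t, κ (g * aM s)) / W := by
        intro t
        unfold av
        congr 1
        have h2 : ∀ s, κ (g * aM t * aM s) = κ (g * aM (t + s)) := by
          intro s
          rw [mul_assoc, ← haM]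
        simp only [h2]
        rw [intervalIntegral.integral_comp_add_left (fun s => κ (g * aM s)) t, add_zero,
          intervalIntegral.integral_interval_sub_left ((hci g).intervalIntegrable _ _) ((hci g).intervalIntegrable _ _)]
      have h3 : (fun t => av κ W (g * aM t)) = fun t => ((∫ s in (0 : ℝ)..(t + W), κ (g * aM s)) -
          ∫ s in (0 : ℝ)..t, κ (g * aM s)) / W := funext h1
      rw [h3]
      refine HasDerivAt.div_const ?_ W
      have h4 : ∀ x : ℝ, HasDerivAt (fun t => ∫ s in (0 : ℝ)..t, κ (g * aM s)) (κ (g * aM x)) x := fun x =>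
        intervalIntegral.integral_hasDerivAt_right ((hci g).intervalIntegrable _ _)
          ((hci g).stronglyMeasurableAtFilter _ _) (hci g).continuousAt
      have h5 : HasDerivAt (fun t => ∫ s in (0 : ℝ)..(t + W), κ (g * aM s)) (κ (g * aM W)) 0 := by
        have h6 : HasDerivAt (fun t => ∫ s in (0 : ℝ)..t, κ (g * aM s)) (κ (g * aM W)) (0 + W) := by
          rw [zero_add]
          exact h4 W
        exact h6.comp_add_const 0 W
      have h7 := h5.sub (h4 0)
      rw [ha0, mul_one] at h7
      exact h7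
    · refine PAV_der κ κn nM (fun s => Real.exp (-s)) Bn W hκc hSF.i1.1 hc1 hn0 hnM ?_ hBn g
      intro s g'
      exact ((hPSF Γ κ κa κn κl hSF).1 s).dn g'
    · refine PAV_der κ κl lM (fun s => Real.exp s) Bl W hκc hSF.il.1 hc2 hl0 hlM ?_ hBl g
      intro s g'
      exact ((hPSF Γ κ κa κn κl hSF).1 s).dl g'
  · rw [abs_div, abs_of_pos hW]
    refine div_le_div_of_nonneg_right ?_ hW.le
    rw [abs_le]
    have h1 := h01 (g * aM W)
    have h2 := h01 g
    constructor <;> linarith
  · have h1 := PAV_bd κn (fun s => Real.exp (-s)) (Real.continuous_exp.comp continuous_neg)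
      (fun s => (Real.exp_pos _).le) (B := Bn) (D := 1) hW hBn ?_ g
    · rw [one_mul] at h1
      exact h1
    · have h2 : ∀ x ∈ uIcc (0 : ℝ) W, HasDerivAt (fun s => -Real.exp (-s)) (Real.exp (-x)) x := by
        intro x _
        have h3 := ((Real.hasDerivAt_exp (-x)).comp x (hasDerivAt_neg x)).neg
        have e : -(Real.exp (-x) * -1) = Real.exp (-x) := by ring
        rw [e] at h3
        exact h3
      rw [intervalIntegral.integral_eq_sub_of_hasDerivAt h2
        ((Real.continuous_exp.comp continuous_neg).intervalIntegrable _ _), neg_zero, Real.exp_zero]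
      have := Real.exp_pos (-W)
      linarith
  · have h1 := PAV_bd κl (fun s => Real.exp s) Real.continuous_exp
      (fun s => (Real.exp_pos _).le) (B := Bl) (D := Real.exp W) hW hBl ?_ g
    · rw [mul_comm Bl]
      exact h1
    · rw [integral_exp, Real.exp_zero]
      linarith

end Pool.Agent.TP
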